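import Pool.Agent.PCL.Stmts

set_option autoImplicit false

namespace Pool.Agent.PCL.H78

open Finset

variable {ι : Type} [Fintype ι]

/-- the box norm -/
noncomputable def nm (N : ι → ℕ) (v : ι → ℤ) : NNReal :=
  univ.sup fun i => Real.toNNReal (|(v i : ℝ)| / N i)

theorem nm_le {N : ι → ℕ} (hN : ∀ i, 1 ≤ N i) {v : ι → ℤ} {r : ℝ} (hr : 0 ≤ r) :
    ((nm N v : NNReal) : ℝ) ≤ r ↔ InB N r v := by
  have h1 : ((nm N v : NNReal) : ℝ) ≤ r ↔ nm N v ≤ r.toNNReal := by
    rw [← Real.toNNReal_le_toNNReal_iff hr, Real.toNNReal_coe]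
  rw [h1]
  unfold nm InB
  rw [Finset.sup_le_iff]
  constructor
  · intro h i
    have h2 := h i (mem_univ i)
    rw [Real.toNNReal_le_toNNReal_iff hr] at h2
    have h3 : (0 : ℝ) < N i := by exact_mod_cast hN i
    rwa [div_le_iff₀ h3] at h2
  · intro h i _
    rw [Real.toNNReal_le_toNNReal_iff hr]
    have h3 : (0 : ℝ) < N i := by exact_mod_cast hN i
    rw [div_le_iff₀ h3]
    exact h i

omit [Fintype ι] in
theorem nonneg_of_inB {N : ι → ℕ} (hN : ∀ i, 1 ≤ N i) {v : ι → ℤ} (hv : v ≠ 0) {r : ℝ}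
    (h : InB N r v) : 0 ≤ r := by
  obtain ⟨i, hi⟩ := Function.ne_iff.mp hv
  have h1 := h i
  have h3 : (0 : ℝ) < N i := by exact_mod_cast hN i
  have h4 : 0 ≤ |(v i : ℝ)| := abs_nonneg _
  by_contra hr
  push Not at hr
  have := mul_neg_of_neg_of_pos hr h3
  linarith

omit [Fintype ι] in
theorem inB_mono {N : ι → ℕ} {v : ι → ℤ} {r s : ℝ} (hrs : r ≤ s) (h : InB N r v) :
    InB N s v := fun i =>
  (h i).trans (mul_le_mul_of_nonneg_right hrs (Nat.cast_nonneg _))

/-- the relation of the points -/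
def Rel (a b : ℂ) : Prop := ∃ t : ℝ, b = t * a ∨ b = t * (Complex.I * a)

theorem Rel.refl (a : ℂ) : Rel a a := ⟨1, Or.inl (by simp)⟩

theorem Rel.symm {a b : ℂ} (hb : b ≠ 0) (h : Rel a b) : Rel b a := by
  obtain ⟨t, h1 | h1⟩ := h
  · have ht : (t : ℂ) ≠ 0 := by
      rintro h0
      rw [h0, zero_mul] at h1
      exact hb h1
    refine ⟨t⁻¹, Or.inl ?_⟩
    rw [h1]
    push_cast
    field_simp
  · have ht : (t : ℂ) ≠ 0 := by
      rintro h0
      rw [h0, zero_mul] at h1
      exact hb h1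
    refine ⟨-t⁻¹, Or.inr ?_⟩
    rw [h1]
    push_cast
    have hI : Complex.I * Complex.I = -1 := Complex.I_mul_I
    field_simp
    linear_combination a * hI

theorem Rel.trans {a b c : ℂ} (h : Rel a b) (h' : Rel b c) : Rel a c := by
  have hI : Complex.I * Complex.I = -1 := Complex.I_mul_I
  obtain ⟨t, h1 | h1⟩ := h
  · obtain ⟨s, h2 | h2⟩ := h'
    · refine ⟨s * t, Or.inl ?_⟩
      rw [h2, h1]
      push_cast
      ring
    · refine ⟨s * t, Or.inr ?_⟩
      rw [h2, h1]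
      push_cast
      ring
  · obtain ⟨s, h2 | h2⟩ := h'
    · refine ⟨s * t, Or.inr ?_⟩
      rw [h2, h1]
      push_cast
      ring
    · refine ⟨-(s * t), Or.inl ?_⟩
      rw [h2, h1]
      push_cast
      linear_combination (s * t * a : ℂ) * hI

theorem perp_iff {z w : ℂ} (hz : z ≠ 0) (h : Perp z w) : ∃ t : ℝ, w = t * (Complex.I * z) := by
  unfold Perp at h
  have hn : Complex.normSq z ≠ 0 := by
    rw [Ne, Complex.normSq_eq_zero]
    exact hz
  refine ⟨(w * (starRingEnd ℂ) z).im / Complex.normSq z, ?_⟩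
  have h1 : w * (starRingEnd ℂ) z = ((w * (starRingEnd ℂ) z).im : ℝ) * Complex.I := by
    apply Complex.ext
    · simp only [Complex.mul_re, Complex.conj_re, Complex.conj_im, Complex.ofReal_re,
        Complex.I_re, Complex.ofReal_im, Complex.I_im] at h ⊢
      linarith
    · simp [Complex.mul_im]
  have h2 : w * ((starRingEnd ℂ) z * z) = ((w * (starRingEnd ℂ) z).im : ℝ) * Complex.I * z := by
    rw [← mul_assoc, ← h1]
  have h3 : (starRingEnd ℂ) z * z = (Complex.normSq z : ℂ) := by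
    rw [mul_comm, Complex.mul_conj]
  rw [h3] at h2
  have hn' : (Complex.normSq z : ℂ) ≠ 0 := by exact_mod_cast hn
  push_cast
  rw [div_mul_eq_mul_div, eq_div_iff hn', h2]
  ring

open Classical in
theorem rep : RepStmt := by
  intro ι _ _ g N hN hg
  have hpt : ∀ u : ι → ℤ, u ≠ 0 → pt g u ≠ 0 := fun u hu h => hu (pt_eq_zero hg h)
  set S : Finset (ι → ℤ) := (bx N 4).filter fun u => u ≠ 0 with hS
  have hmS : ∀ u, u ∈ S ↔ InB N 4 u ∧ u ≠ 0 := fun u => by rw [hS, mem_filter, mem_bx]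
  set cls : (ι → ℤ) → Finset (ι → ℤ) := fun u => S.filter fun u' => Rel (pt g u) (pt g u') with hcls
  have hmc : ∀ u u', u' ∈ cls u ↔ u' ∈ S ∧ Rel (pt g u) (pt g u') := fun u u' => by
    rw [hcls, mem_filter]
  have hceq : ∀ u ∈ S, ∀ u' ∈ cls u, cls u' = cls u := by
    intro u hu u' hu'
    obtain ⟨hu'S, hr⟩ := (hmc u u').mp hu'
    have hu0 := hpt u ((hmS u).mp hu).2
    have hu'0 := hpt u' ((hmS u').mp hu'S).2
    ext w
    rw [hmc, hmc]
    constructor
    · rintro ⟨h1, h2⟩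
      exact ⟨h1, hr.trans h2⟩
    · rintro ⟨h1, h2⟩
      exact ⟨h1, (hr.symm hu'0).trans h2⟩
  set m : Finset (ι → ℤ) → (ι → ℤ) := fun C =>
    if h : C.Nonempty then Classical.choose (C.exists_min_image (nm N) h) else 0 with hm
  have hself : ∀ u ∈ S, u ∈ cls u := fun u hu => (hmc u u).mpr ⟨hu, Rel.refl _⟩
  have hmspec : ∀ u ∈ S, m (cls u) ∈ cls u ∧ ∀ x ∈ cls u, nm N (m (cls u)) ≤ nm N x := by
    intro u hu
    have hne : (cls u).Nonempty := ⟨u, hself u hu⟩
    have h1 : m (cls u) = Classical.choose ((cls u).exists_min_image (nm N) hne) := by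
      rw [hm]
      exact dif_pos hne
    rw [h1]
    exact Classical.choose_spec ((cls u).exists_min_image (nm N) hne)
  refine ⟨S.image fun u => m (cls u), ?_, ?_, ?_, ?_⟩
  · intro v hv
    obtain ⟨u, hu, rfl⟩ := mem_image.mp hv
    have h1 := ((hmc u _).mp (hmspec u hu).1).1
    exact ⟨((hmS _).mp h1).2, ((hmS _).mp h1).1⟩
  · intro v hv v' hv' hne t
    obtain ⟨u, hu, rfl⟩ := mem_image.mp hv
    obtain ⟨u', hu', rfl⟩ := mem_image.mp hv'
    have h1 := (hmspec u hu).1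
    have h1' := (hmspec u' hu').1
    have key : ¬ Rel (pt g (m (cls u))) (pt g (m (cls u'))) := by
      intro hr
      apply hne
      have h2 : m (cls u') ∈ cls (m (cls u)) := (hmc _ _).mpr ⟨((hmc _ _).mp h1').1, hr⟩
      have h3 := hceq _ ((hmc _ _).mp h1).1 _ h2
      have h4 := hceq u hu _ h1
      have h5 := hceq u' hu' _ h1'
      have h6 : cls u = cls u' := by rw [← h4, ← h3, h5]
      rw [h6]
    exact ⟨fun h => key ⟨t, Or.inl h⟩, fun h => key ⟨t, Or.inr h⟩⟩
  · intro v hv z hz hL r hr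
    obtain ⟨u, hu, rfl⟩ := mem_image.mp hv
    have h1 := hmspec u hu
    have hr0 := nonneg_of_inB hN hz hr
    by_cases h4 : InB N 4 z
    · have hzS : z ∈ S := (hmS z).mpr ⟨h4, hz⟩
      have hrel : Rel (pt g (m (cls u))) (pt g z) := by
        rcases hL with hL | hL
        · obtain ⟨t, ht⟩ := hL
          exact ⟨t, Or.inl ht⟩
        · obtain ⟨t, ht⟩ := hL
          exact ⟨t, Or.inr ht⟩
      have hzc : z ∈ cls u := by
        rw [← hceq u hu _ h1.1]
        exact (hmc _ _).mpr ⟨hzS, hrel⟩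
      have h5 := h1.2 z hzc
      rw [← nm_le hN hr0] at hr ⊢
      exact le_trans (by exact_mod_cast h5) hr
    · have h5 : 4 ≤ r := by
        by_contra h6
        push Not at h6
        exact h4 (inB_mono h6.le hr)
      exact inB_mono h5 ((hmS _).mp ((hmc _ _).mp h1.1).1).1
  · -- the count
    set V : Finset (ι → ℤ) := S.image fun u => m (cls u) with hV
    set F : ℂ → Finset (ι → ℤ) := fun e => (bx N 4).filter fun x => x ∈ Lat g e with hF
    have hFc : ∀ e, (F e).card = cnt (Lat g e) N 4 := fun e => rfl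
    have hsub : ((bx N 4 ×ˢ bx N 4).filter fun p => Perp (pt g p.1) (pt g p.2)) ⊆
        (({0} ×ˢ bx N 4) ∪ (bx N 4 ×ˢ {0})) ∪
          ((V.biUnion fun v => F (pt g v) ×ˢ F (Complex.I * pt g v)) ∪
            (V.biUnion fun v => F (Complex.I * pt g v) ×ˢ F (pt g v))) := by
      rintro ⟨x, y⟩ hxy
      rw [mem_filter, mem_product] at hxy
      obtain ⟨⟨hx, hy⟩, hp⟩ := hxy
      simp only at hx hy hp
      simp only [mem_union, mem_product, mem_singleton, mem_biUnion]
      by_cases hx0 : x = 0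
      · exact Or.inl (Or.inl ⟨hx0, hy⟩)
      by_cases hy0 : y = 0
      · exact Or.inl (Or.inr ⟨hx, hy0⟩)
      right
      have hxS : x ∈ S := (hmS x).mpr ⟨mem_bx.mp hx, hx0⟩
      have h1 := hmspec x hxS
      have hv : m (cls x) ∈ V := mem_image.mpr ⟨x, hxS, rfl⟩
      have hrel : Rel (pt g (m (cls x))) (pt g x) :=
        ((hmc _ _).mp h1.1).2.symm (hpt _ ((hmS _).mp ((hmc _ _).mp h1.1).1).2)
      obtain ⟨t, ht⟩ := perp_iff (hpt x hx0) hp
      have hI : Complex.I * Complex.I = -1 := Complex.I_mul_I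
      obtain ⟨s, hs | hs⟩ := hrel
      · left
        refine ⟨m (cls x), hv, mem_filter.mpr ⟨hx, ⟨s, hs⟩⟩, mem_filter.mpr ⟨hy, ⟨t * s, ?_⟩⟩⟩
        rw [ht, hs]
        push_cast
        ring
      · right
        refine ⟨m (cls x), hv, mem_filter.mpr ⟨hx, ⟨s, hs⟩⟩,
          mem_filter.mpr ⟨hy, ⟨-(t * s), ?_⟩⟩⟩
        rw [ht, hs]
        push_cast
        linear_combination (t * s * pt g (m (cls x)) : ℂ) * hI
    have hcard := card_le_card hsub
    have e1 := card_union_le (({0} ×ˢ bx N 4) ∪ (bx N 4 ×ˢ {0}))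
      ((V.biUnion fun v => F (pt g v) ×ˢ F (Complex.I * pt g v)) ∪
            (V.biUnion fun v => F (Complex.I * pt g v) ×ˢ F (pt g v)))
    have e2 := card_union_le ({(0 : ι → ℤ)} ×ˢ bx N 4) (bx N 4 ×ˢ {(0 : ι → ℤ)})
    have e3 := card_union_le (V.biUnion fun v => F (pt g v) ×ˢ F (Complex.I * pt g v))
      (V.biUnion fun v => F (Complex.I * pt g v) ×ˢ F (pt g v))
    have e4 : (V.biUnion fun v => F (pt g v) ×ˢ F (Complex.I * pt g v)).card ≤
        ∑ v ∈ V, cnt (Lat g (pt g v)) N 4 * cnt (Lat g (Complex.I * pt g v)) N 4 := by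
      refine card_biUnion_le.trans (le_of_eq (sum_congr rfl fun v _ => ?_))
      rw [card_product, hFc, hFc]
    have e5 : (V.biUnion fun v => F (Complex.I * pt g v) ×ˢ F (pt g v)).card ≤
        ∑ v ∈ V, cnt (Lat g (pt g v)) N 4 * cnt (Lat g (Complex.I * pt g v)) N 4 := by
      refine card_biUnion_le.trans (le_of_eq (sum_congr rfl fun v _ => ?_))
      rw [card_product, hFc, hFc, mul_comm]
    rw [card_product, card_product, card_singleton, one_mul, mul_one] at e2
    have hfin : prp g N 4 ≤ 2 * (bx N 4).card + 2 * ∑ v ∈ V,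
        cnt (Lat g (pt g v)) N 4 * cnt (Lat g (Complex.I * pt g v)) N 4 := by
      have h0 : prp g N 4 = ((bx N 4 ×ˢ bx N 4).filter fun p =>
        Perp (pt g p.1) (pt g p.2)).card := rfl
      rw [h0]
      omega
    have hfin' : ((prp g N 4 : ℕ) : ℝ) ≤ ((2 * (bx N 4).card + 2 * ∑ v ∈ V,
        cnt (Lat g (pt g v)) N 4 * cnt (Lat g (Complex.I * pt g v)) N 4 : ℕ) : ℝ) := by
      exact_mod_cast hfin
    refine hfin'.trans (le_of_eq ?_)
    push_cast
    ring

end Pool.Agent.PCL.H78
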